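import Mathlib

namespace Pool.Agent.Results.MP_20154b_co.Counter
open Finset

variable {V : Type}

/-- at least 3 vertices, connected, no cut vertex. -/
def TwoConnected (G : SimpleGraph V) : Prop :=
  3 ≤ Nat.card V ∧ G.Connected ∧ ∀ x : V, (G.induce {x}ᶜ).Connected

/-- f(v) is at most the eccentricity of v. -/
def Broadcast (G : SimpleGraph V) (f : V → ℕ) : Prop := ∀ v, ∃ u, f v ≤ G.dist u v

def Hears (G : SimpleGraph V) (f : V → ℕ) (u : V) : Prop := ∃ v, 0 < f v ∧ G.dist u v ≤ f v

def MinimalDominating (G : SimpleGraph V) (f : V → ℕ) : Prop :=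
  Broadcast G f ∧ (∀ u, Hears G f u) ∧
    ∀ g, Broadcast G g → (∀ v, g v ≤ f v) → g ≠ f → ¬ ∀ u, Hears G g u

def BnrIndependent [DecidableEq V] (G : SimpleGraph V) (f : V → ℕ) : Prop :=
  Broadcast G f ∧
    (∀ u v, u ≠ v → 0 < f u → 0 < f v → ∀ x, G.dist x u ≤ f u → G.dist x v ≤ f v →
      G.dist x u = f u ∧ G.dist x v = f v) ∧
    ∀ v, 0 < f v → ∃ u, G.dist u v ≤ f v ∧ ¬ Hears G (Function.update f v (f v - 1)) u

lemma dist_eq (G : SimpleGraph V) (D : V → V → ℕ) (h0 : ∀ u, D u u = 0)
    (h1 : ∀ u v w, G.Adj v w → D v u ≤ D w u + 1)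
    (h2 : ∀ u v, v ≠ u → ∃ w, G.Adj v w ∧ D w u + 1 = D v u) (u v : V) : G.dist v u = D v u := by
  have a : ∀ k v, D v u = k → ∃ p : G.Walk v u, p.length ≤ k := by
    intro k
    induction k with
    | zero =>
      intro v hv
      by_cases e : v = u
      · subst e; exact ⟨SimpleGraph.Walk.nil, by simp⟩
      · obtain ⟨w, -, hw⟩ := h2 u v e
        omega
    | succ k ih =>
      intro v hv
      by_cases e : v = u
      · subst e; exact ⟨SimpleGraph.Walk.nil, by simp⟩
      · obtain ⟨w, hw1, hw⟩ := h2 u v e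
        obtain ⟨p, hp⟩ := ih w (by omega)
        exact ⟨SimpleGraph.Walk.cons hw1 p, by simp [hp]⟩
  have b : ∀ x y (p : G.Walk x y), D x y ≤ p.length := by
    intro x y p
    induction p with
    | nil => simp [h0]
    | cons h p ih => exact (h1 _ _ _ h).trans (by simpa using ih)
  obtain ⟨p, hp⟩ := a _ v rfl
  refine le_antisymm ((SimpleGraph.dist_le p).trans hp) ?_
  obtain ⟨q, hq⟩ := (p.reachable).exists_walk_length_eq_dist
  exact hq ▸ b _ _ q

lemma conn_of {W : Type} (G : SimpleGraph W) (r : W) (R : W → ℕ)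
    (h : ∀ v, v ≠ r → ∃ w, G.Adj v w ∧ R w < R v) : G.Connected := by
  have a : ∀ k v, R v = k → G.Reachable v r := by
    intro k
    induction k using Nat.strong_induction_on with
    | _ k ih =>
      intro v hv
      by_cases e : v = r
      · subst e; rfl
      · obtain ⟨w, hw1, hw⟩ := h v e
        exact hw1.reachable.trans (ih _ (hv ▸ hw) w rfl)
  haveI : Nonempty W := ⟨r⟩
  exact ⟨fun u v => (a _ u rfl).trans (a _ v rfl).symm⟩

def D (u v : ℕ) : ℕ := (371382081569946264348731498609106995944951795076953411253907228932624866709213142126754911521460162687341065551062723890284409496 >>> (3 * (12 * u + v))) % 8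

def R (x v : ℕ) : ℕ := (4064869133992651387308330647097994995990915018787413769565040079398545447824648953805716129458625154760842828924123798366678797659223369423313347377588544167786386108326144 >>> (4 * (12 * x + v))) % 16

def G0 : SimpleGraph (Fin 12) where
  Adj a b := D a.val b.val = 1
  symm := ⟨by decide +kernel⟩
  loopless := ⟨by decide +kernel⟩

instance : DecidableRel G0.Adj := fun a b => inferInstanceAs (Decidable (D a.val b.val = 1))

lemma dist0 (u v : Fin 12) : G0.dist u v = D u.val v.val :=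
  dist_eq G0 (fun a b => D a.val b.val) (by decide +kernel) (by decide +kernel)
    (by decide +kernel) v u

lemma two : TwoConnected G0 := by
  refine ⟨by simp, conn_of G0 0 (fun v => D v.val 0) (by decide +kernel), fun x => ?_⟩
  have h : ∀ x v : Fin 12, v ≠ x → v ≠ (if x = 0 then 1 else 0) →
      ∃ w, w ≠ x ∧ G0.Adj v w ∧ R x.val w.val < R x.val v.val := by decide +kernel
  have h2 : ∀ x : Fin 12, (if x = 0 then 1 else 0) ≠ x := by decide
  refine conn_of _ ⟨if x = 0 then 1 else 0, h2 x⟩ (fun v => R x.val v.val.val) ?_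
  rintro ⟨v, hv⟩ hr
  obtain ⟨w, hw1, hw2, hw3⟩ := h x v hv (fun e => hr (Subtype.ext e))
  exact ⟨⟨w, hw1⟩, hw2, hw3⟩

def f0 : Fin 12 → ℕ := ![2, 0, 0, 0, 1, 0, 2, 0, 0, 0, 0, 0]

lemma bnr : BnrIndependent G0 f0 := by
  simp only [BnrIndependent, Broadcast, Hears, dist0]
  refine ⟨by decide +kernel, fun u v => ?_, by decide +kernel⟩
  have : ∀ u v x : Fin 12, u ≠ v ∧ 0 < f0 u ∧ 0 < f0 v ∧ D x u ≤ f0 u ∧ D x v ≤ f0 v →
      D x u = f0 u ∧ D x v = f0 v := by decide +kernel
  exact fun a b c x d e => this u v x ⟨a, b, c, d, e⟩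

def irr (L : List (ℕ × ℕ)) : Bool :=
  L.all fun p => (List.range 12).any fun u =>
    decide (D u p.1 ≤ p.2) && (decide (p.2 = 1) || decide (p.2 ≤ D u p.1)) &&
      L.all fun q => decide (q.1 = p.1) || decide (q.2 < D u q.1)

def fin (L : List (ℕ × ℕ)) : Bool :=
  !((List.range 12).all fun u => L.any fun p => decide (D u p.1 ≤ p.2)) ||
    decide ((L.map Prod.snd).sum ≤ 4)

def go : ℕ → ℕ → List (ℕ × ℕ) → Bool
  | 0, _, L => fin L
  | k + 1, j, L => go k (j + 1) L &&
      [1, 2, 3, 4].all fun x => !(irr ((j, x) :: L)) || go k (j + 1) ((j, x) :: L)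

lemma go_true : go 12 0 [] = true := by decide +kernel

def S (g : ℕ → ℕ) : ℕ → List (ℕ × ℕ)
  | 0 => []
  | j + 1 => if g j = 0 then S g j else (j, g j) :: S g j

lemma mem_S (g : ℕ → ℕ) (p : ℕ × ℕ) : ∀ j, p ∈ S g j ↔ p.1 < j ∧ g p.1 = p.2 ∧ p.2 ≠ 0
  | 0 => by simp [S]
  | j + 1 => by
    obtain ⟨a, b⟩ := p
    simp only [S]
    split_ifs with h
    · rw [mem_S g (a, b) j]
      constructor
      · rintro ⟨h1, h2⟩; exact ⟨by omega, h2⟩
      · rintro ⟨h1, h2, h3⟩
        refine ⟨?_, h2, h3⟩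
        by_contra hh
        have : a = j := by simp only at h1 hh; omega
        subst this
        exact h3 (h2.symm.trans h)
    · rw [List.mem_cons, mem_S g (a, b) j, Prod.mk.injEq]
      constructor
      · rintro (⟨rfl, rfl⟩ | ⟨h1, h2⟩)
        · exact ⟨by simp, rfl, h⟩
        · exact ⟨by omega, h2⟩
      · rintro ⟨h1, h2, h3⟩
        by_cases e : a = j
        · left; subst e; exact ⟨rfl, h2.symm⟩
        · right; exact ⟨by simp only at h1 ⊢; omega, h2, h3⟩

lemma sum_S (g : ℕ → ℕ) : ∀ j, ((S g j).map Prod.snd).sum = ∑ i ∈ range j, g i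
  | 0 => by simp [S]
  | j + 1 => by
    rw [sum_range_succ, ← sum_S g j]
    simp only [S]
    split_ifs with h
    · omega
    · simp [add_comm]

lemma go_S (g : ℕ → ℕ) (h4 : ∀ j, g j ≤ 4) (hi : ∀ j ≤ 12, irr (S g j) = true) :
    ∀ k j, j + k = 12 → go k j (S g j) = true → fin (S g 12) = true
  | 0, j, e, h => by
    have : j = 12 := by omega
    subst this
    exact h
  | k + 1, j, e, h => by
    apply go_S g h4 hi k (j + 1) (by omega)
    have h1 := hi (j + 1) (by omega)
    simp only [go, Bool.and_eq_true, List.all_eq_true] at h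
    simp only [S] at h1 ⊢
    split_ifs with h0
    · exact h.1
    · rw [if_neg h0] at h1
      have h2 := h.2 (g j) (by have := h4 j; simp; omega)
      simpa [h1] using h2

lemma bound (f : Fin 12 → ℕ) (hf : MinimalDominating G0 f) : ∑ v, f v ≤ 4 := by
  obtain ⟨hb, hd, hm⟩ := hf
  have hD : ∀ u v : Fin 12, D u.val v.val ≤ 4 := by decide +kernel
  have hp : ∀ v, 0 < f v → ∃ u : Fin 12, D u.val v.val ≤ f v ∧ (f v = 1 ∨ f v ≤ D u.val v.val) ∧
      ∀ w, w ≠ v → 0 < f w → f w < D u.val w.val := by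
    intro v hv
    have hle : ∀ w, Function.update f v (f v - 1) w ≤ f w := by
      intro w
      by_cases e : w = v
      · subst e; simp
      · simp [e]
    have h1 := hm (Function.update f v (f v - 1))
      (fun w => (hb w).imp fun u hu => (hle w).trans hu) hle
      (fun e => by have := congrFun e v; simp at this; omega)
    obtain ⟨u, hu⟩ := not_forall.mp h1
    have h2 : ∀ w, w ≠ v → 0 < f w → f w < D u.val w.val := by
      intro w hw h0
      by_contra hh
      exact hu ⟨w, by simpa [hw] using h0, by rw [dist0]; simpa [hw] using hh⟩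
    refine ⟨u, ?_, ?_, h2⟩
    · obtain ⟨w, hw1, hw2⟩ := hd u
      rw [dist0] at hw2
      by_cases e : w = v
      · exact e ▸ hw2
      · have := h2 w e hw1; omega
    · by_contra hh
      exact hu ⟨v, by simp; omega, by rw [dist0]; simp; omega⟩
  obtain ⟨g, hg⟩ : ∃ g : ℕ → ℕ, ∀ j, g j = if h : j < 12 then f ⟨j, h⟩ else 0 := ⟨_, fun _ => rfl⟩
  have hgv : ∀ v : Fin 12, g v.val = f v := fun v => by simp [hg]
  have h4 : ∀ j, g j ≤ 4 := by
    intro j
    rw [hg]
    split_ifs with h
    · obtain ⟨u, hu⟩ := hb ⟨j, h⟩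
      rw [dist0] at hu
      exact hu.trans (hD _ _)
    · omega
  have hi : ∀ j ≤ 12, irr (S g j) = true := by
    intro j hj
    simp only [irr, List.all_eq_true, List.any_eq_true, Bool.and_eq_true, Bool.or_eq_true,
      decide_eq_true_eq, List.mem_range, mem_S]
    rintro ⟨a, b⟩ ⟨a1, a2, a3⟩
    simp only at a1 a2 a3 ⊢
    have e := hgv ⟨a, by omega⟩
    simp only at e
    obtain ⟨u, u1, u2, u3⟩ := hp ⟨a, by omega⟩ (by omega)
    simp only at u1 u2
    refine ⟨u.val, u.2, ⟨by omega, by omega⟩, ?_⟩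
    rintro ⟨c, d⟩ ⟨c1, c2, c3⟩
    simp only at c1 c2 c3 ⊢
    by_cases e2 : c = a
    · exact Or.inl e2
    · right
      have e3 := hgv ⟨c, by omega⟩
      simp only at e3
      have := u3 ⟨c, by omega⟩ (fun h => e2 (by simpa using h)) (by omega)
      simp only at this
      omega
  have hf := go_S g h4 hi 12 0 rfl go_true
  have hdom : ((List.range 12).all fun u => (S g 12).any fun p => decide (D u p.1 ≤ p.2)) = true := by
    simp only [List.all_eq_true, List.any_eq_true, decide_eq_true_eq, List.mem_range, mem_S]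
    intro u hu
    obtain ⟨w, hw1, hw2⟩ := hd ⟨u, hu⟩
    rw [dist0] at hw2
    exact ⟨(w.val, f w), ⟨w.2, hgv w, by simp only; omega⟩, hw2⟩
  simp only [fin, hdom, Bool.not_true, Bool.false_or, decide_eq_true_eq, sum_S] at hf
  rw [← Fin.sum_univ_eq_sum_range] at hf
  simpa only [hgv] using hf

theorem result : ∃ (n : ℕ) (G : SimpleGraph (Fin n)), TwoConnected G ∧
    ∃ f, BnrIndependent G f ∧ ∀ g, MinimalDominating G g → ∑ v, g v < ∑ v, f v := by
  refine ⟨12, G0, two, f0, bnr, fun g hg => ?_⟩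
  have h1 := bound g hg
  have h2 : ∑ v, f0 v = 5 := by decide
  omega

end Pool.Agent.Results.MP_20154b_co.Counter
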